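import Pool.Agent.H62.QM.Desc
import Mathlib.NumberTheory.Padics.HeightOneSpectrum

/-!
# Project PR, part FWD: the local conditions without a condition modulo `4` (helper93)

The first part is a copy of the corresponding part of `H62/QM/Desc.lean` (helper62), with a weaker
structure of hypotheses.
-/

set_option autoImplicit false
set_option linter.all false

namespace Pool.Agent.H93.PR

local instance (p : Nat.Primes) : Fact p.1.Prime := ⟨p.2⟩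

/-- The prime over `2`. -/
noncomputable def w2 : IsDedekindDomain.HeightOneSpectrum (NumberField.RingOfIntegers ℚ) :=
  Rat.HeightOneSpectrum.primesEquiv.symm ⟨2, Nat.prime_two⟩

attribute [local instance 2000] IsDedekindDomain.HeightOneSpectrum.instAlgebraAdicCompletion in
/-- From the completion to `ℚ_[2]`. -/
noncomputable def φ2 : w2.adicCompletion ℚ →+* ℚ_[2] :=
  ((Padic.adicCompletionEquiv (R := NumberField.RingOfIntegers ℚ)
    (⟨2, Nat.prime_two⟩ : Nat.Primes)).toAlgEquiv.toRingEquiv.symm).toRingHom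

end Pool.Agent.H93.PR

open Polynomial IsDedekindDomain WeierstrassCurve WeierstrassCurve.Affine NumberField
open Pool.Agent.TH115.GD
open scoped Classical IntermediateField

namespace Pool.Agent.H93.PR

open Pool.Agent.N874.PP (Tup chA chB gq tau Two Ev Sq1 U0 sW IsBeta Rt)
open Pool.Agent.N874.PM (PLoc Lies SelR ShaR)
open Pool.Agent.N922.PQ
open Pool.Agent.H62.QM

/-- Properties of the curve and of the set `J`. -/
structure Dat' (a b : ℤ) (J : Finset ℤ) : Prop where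
  sq : Squarefree (dsc a b)
  n2 : NR a b 2
  n3 : NR a b 3
  j : ∀ Q ∈ J, IsPr Q ∧ Q % 8 = 1 ∧ Q ∣ b ∧ ∀ z : ℤ, ¬ Q ∣ z ^ 2 + a

theorem Dat'.nd2 {a b : ℤ} {J : Finset ℤ} (hD : Dat' a b J) {Q : ℤ} (hQ : Q ∈ J) : ¬ Q ∣ 2 :=
  not_dvd_two (hD.j Q hQ).2.1 (hD.j Q hQ).1.1 (hD.j Q hQ).1.2

/-- `X ^ 3 + a X + b` has a zero modulo the primes in `J`. -/
theorem Dat'.not_nr {a b : ℤ} {J : Finset ℤ} (hD : Dat' a b J) {Q : ℤ} (hQ : Q ∈ J) :
    ¬ NR a b Q := by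
  intro h
  apply h 0
  have e : (0 : ℤ) ^ 3 + a * 0 + b = b := by ring
  rw [e]
  exact (hD.j Q hQ).2.2.1

section main

variable {L M Ω : Type} [Field L] [NumberField L] [Field M] [NumberField M] [Field Ω]
  [NumberField Ω] [Algebra L Ω] [Algebra M Ω] [IsGalois ℚ M] {a b : ℤ} {J : Finset ℤ} {θ : L}

theorem mem_of_unit (hD : Dat' a b J) {Q : ℤ} (hQ : Q ∈ J) {w : HeightOneSpectrum (𝓞 Ω)}
    (hw : Ov Q w) {t : 𝓞 Ω} (ht : t ^ 3 + (a : 𝓞 Ω) * t + (b : 𝓞 Ω) = 0)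
    (h1 : w.valuation Ω (algebraMap (𝓞 Ω) Ω t) = 1) : t ^ 2 + (a : 𝓞 Ω) ∈ w.asIdeal := by
  have hnt : t ∉ w.asIdeal := by
    intro hm
    have := (w.valuation_lt_one_iff_mem (K := Ω) t).2 hm
    exact absurd h1 this.ne
  have hprod : t * (t ^ 2 + (a : 𝓞 Ω)) ∈ w.asIdeal := by
    have e : t * (t ^ 2 + (a : 𝓞 Ω)) = - (b : 𝓞 Ω) := by linear_combination ht
    rw [e]
    obtain ⟨c, hc⟩ := (hD.j Q hQ).2.2.1
    rw [hc, Int.cast_mul]
    exact neg_mem (Ideal.mul_mem_right _ _ hw)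
  exact (w.isPrime.mem_or_mem hprod).resolve_left hnt

/-- The element `Q θ` has odd valuation. -/
theorem odd_at (hEXQ : S_EXQ) (hc : IsCub a b θ) (hD : Dat' a b J) (hM : Fld M a b J) {γ : M}
    (hγ : L⟮algebraMap M Ω γ⟯ = ⊤) {Q : ℤ} (hQ : Q ∈ J) (𝔓 : HeightOneSpectrum (𝓞 Ω))
    (h1 : Ov Q 𝔓) (h2 : 𝔓.valuation Ω (algebraMap L Ω θ) = 1) :
    ¬ Ev 𝔓 ((Q : Ω) * algebraMap L Ω θ) := by
  obtain ⟨hpr, -, hb, hns⟩ := hD.j Q hQ
  obtain ⟨𝔭, h𝔭⟩ := exists_under L Ω 𝔓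
  have hd : ¬ Q ∣ discr M := fun h => hD.not_nr hQ (hM.ram Q hpr.2 h)
  have hv := val_comp (L := L) hγ hpr.2 hd 𝔭 𝔓 h1
  obtain ⟨𝔓₁, 𝔮, h3, h4, h5, h7, h8, h9⟩ := hEXQ L (𝓞 L) a b θ hc hD.sq Q hpr.2 hb hns
  have e : (Q : Ω) * algebraMap L Ω θ = algebraMap L Ω ((Q : L) * θ) := by
    rw [map_mul, map_intCast]
  rw [e, ev_down hv]
  rcases h9 𝔭 ((ov_down hv Q).1 h1) with rfl | rfl
  · rw [hv] at h2
    exact absurd h2 h5.ne
  · exact h8

/-- Integers are squares at the primes where `θ` is a unit. -/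
theorem sq_at (hc : IsCub a b θ) (hD : Dat' a b J) {Q : ℤ} (hQ : Q ∈ J)
    (𝔓 : HeightOneSpectrum (𝓞 Ω)) (h1 : Ov Q 𝔓)
    (h2 : 𝔓.valuation Ω (algebraMap L Ω θ) = 1) (m : ℤ) :
    ∃ s : Ω, 𝔓.valuation Ω (s ^ 2 - (m : Ω)) < 1 := by
  obtain ⟨hpr, -, hb, hns⟩ := hD.j Q hQ
  obtain ⟨t, ht, ht0⟩ := exists_t (Ω := Ω) hc
  rw [← ht] at h2
  obtain ⟨s, hs⟩ := int_sq hpr.2 (hD.nd2 hQ) h1 hns (mem_of_unit hD hQ h1 ht0 h2) m
  refine ⟨algebraMap (𝓞 Ω) Ω s, ?_⟩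
  have e : algebraMap (𝓞 Ω) Ω s ^ 2 - (m : Ω) = algebraMap (𝓞 Ω) Ω (s ^ 2 - (m : 𝓞 Ω)) := by
    rw [map_sub, map_pow, map_intCast]
  rw [e, HeightOneSpectrum.valuation_lt_one_iff_mem]
  exact hs

/-- The conditions at the top. -/
theorem cn_top (hEXQ : S_EXQ) (hLIE : S_LIE) (hLOC1M : Pool.Agent.N874.PM.S_LOC1M)
    (hc : IsCub a b θ) (hD : Dat' a b J) (hM : Fld M a b J) {γ : M}
    (hγ : L⟮algebraMap M Ω γ⟯ = ⊤) {h : M[X]}
    (hloc : ∀ w : HeightOneSpectrum (𝓞 M), ¬ Ov 2 w → PLoc (w.adicCompletion M)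
      (((a * (∏ Q ∈ J, Q) ^ 2 : ℤ)) : M) (((b * (∏ Q ∈ J, Q) ^ 3 : ℤ)) : M) h)
    (h0 : aeval (((∏ Q ∈ J, Q : ℤ) : Ω) * algebraMap L Ω θ) h ≠ 0) :
    Cn a b J (algebraMap L Ω θ) (aeval (((∏ Q ∈ J, Q : ℤ) : Ω) * algebraMap L Ω θ) h) := by
  have hroot : (algebraMap L Ω θ) ^ 3 + algebraMap M Ω (a : M) * algebraMap L Ω θ +
      algebraMap M Ω (b : M) = 0 := by
    have h1 := congrArg (algebraMap L Ω) hc.root
    rw [map_zero, map_add, map_add, map_mul, map_pow, map_intCast, map_intCast] at h1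
    rw [map_intCast, map_intCast]
    exact h1
  have hp2 : IsPr 2 := ⟨by norm_num, Int.prime_two⟩
  have hp3 : IsPr 3 := ⟨by norm_num, Int.prime_three⟩
  refine ⟨fun 𝔓 h1 h2 => ?_, fun Q hQ 𝔓 h𝔓 hθ => ?_⟩
  · obtain ⟨w, hw, hO⟩ := hLIE M Ω (𝓞 M) (𝓞 Ω) 𝔓
    obtain ⟨P, hP, hP𝔓⟩ := exists_below 𝔓
    have hnP : ¬ NR a b P := fun hn => h1 P hP hn hP𝔓
    have hd : ¬ P ∣ discr M := fun hd => hnP (hM.ram P hP.2 hd)
    obtain ⟨v, hv⟩ := val_rat hP.2 hd w ((hO P).2 hP𝔓)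
    have h2w : ¬ Ov 2 w := fun h => h1 2 hp2 hD.n2 ((hO 2).1 h)
    have h3w : ¬ Ov 3 w := fun h => h1 3 hp3 hD.n3 ((hO 3).1 h)
    have hD1 : w.valuation M (((∏ Q ∈ J, Q : ℤ)) : M) = 1 := by
      refine val_eq_of _ w fun h => ?_
      obtain ⟨Q, hQ, h'⟩ := ov_prod h
      exact h2 Q hQ ((hO Q).1 h')
    have hdisc : WithZero.exp (-1 : ℤ) ≤ w.valuation M (4 * (a : M) ^ 3 +
        27 * (b : M) ^ 2) := by
      have e : 4 * (a : M) ^ 3 + 27 * (b : M) ^ 2 =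
          algebraMap ℚ M ((dsc a b : ℤ) : ℚ) := by
        rw [map_intCast]
        simp [dsc]
      rw [e, hv]
      exact val_sqfree hD.sq v
    have e3 : algebraMap M Ω (((∏ P ∈ J, P : ℤ)) : M) = (((∏ P ∈ J, P : ℤ)) : Ω) :=
      map_intCast _ _
    have hl := hloc w h2w
    have hl' : PLoc (w.adicCompletion M) ((a : M) * (((∏ Q ∈ J, Q : ℤ)) : M) ^ 2)
        ((b : M) * (((∏ Q ∈ J, Q : ℤ)) : M) ^ 3) h := by
      have e1 : (((a * (∏ Q ∈ J, Q) ^ 2 : ℤ)) : M) = (a : M) * (((∏ Q ∈ J, Q : ℤ)) : M) ^ 2 := by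
        simp only [Int.cast_mul, Int.cast_pow]
      have e2 : (((b * (∏ Q ∈ J, Q) ^ 3 : ℤ)) : M) = (b : M) * (((∏ Q ∈ J, Q : ℤ)) : M) ^ 3 := by
        simp only [Int.cast_mul, Int.cast_pow]
      rw [← e1, ← e2]
      exact hl
    have h3 := hLOC1M M Ω (𝓞 M) (𝓞 Ω) w 𝔓 hw (a : M) (b : M)
      (((∏ P ∈ J, P : ℤ)) : M) (algebraMap L Ω θ) h hroot
      (val_six h2w h3w) (val_le a w) (val_le b w) hD1 hdisc hl'
      (by rw [e3]; exact h0)
    rw [e3] at h3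
    exact h3
  · obtain ⟨hpr, -, hb, hns⟩ := hD.j Q hQ
    obtain ⟨w, hw, hO⟩ := hLIE M Ω (𝓞 M) (𝓞 Ω) 𝔓
    have hQw : Ov Q w := (hO Q).2 h𝔓
    have hd : ¬ Q ∣ discr M := fun h => hD.not_nr hQ (hM.ram Q hpr.2 h)
    have h2w : ¬ Ov 2 w := not_ov_of hpr hp2 (fun h => hD.nd2 hQ (by rw [h])) hQw
    obtain ⟨v, hv⟩ := val_rat hpr.2 hd w hQw
    have hprod : (∏ P ∈ J, P) = Q * ∏ P ∈ J.erase Q, P := (Finset.mul_prod_erase J id hQ).symm
    have hvQ : w.valuation M (Q : M) = v.valuation ℚ (Q : ℚ) := by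
      rw [← hv, map_intCast (algebraMap ℚ M)]
    have hϖ : w.valuation M (Q : M) = WithZero.exp (-1 : ℤ) := by
      refine le_antisymm (val_le_exp w ?_ ((ov_val Q w).1 hQw)) ?_
      · exact_mod_cast hpr.2.ne_zero
      · rw [hvQ]
        exact val_sqfree hpr.2.irreducible.squarefree v
    have hD' : w.valuation M (((∏ P ∈ J.erase Q, P : ℤ)) : M) = 1 := by
      refine val_eq_of _ w fun h => ?_
      obtain ⟨P, hP, hP'⟩ := ov_prod h
      exact Finset.ne_of_mem_erase hP (below_unique (hD.j P (Finset.mem_of_mem_erase hP)).1 hpr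
        hP' hQw)
    have hb1 : w.valuation M (b : M) < 1 := by
      rw [← ov_val]
      obtain ⟨c, hc⟩ := hb
      unfold Ov at hQw ⊢
      rw [hc, Int.cast_mul]
      exact Ideal.mul_mem_right _ _ hQw
    have e1 : (((a * (∏ Q ∈ J, Q) ^ 2 : ℤ)) : M) = (a : M) *
        ((Q : M) * (((∏ P ∈ J.erase Q, P : ℤ)) : M)) ^ 2 := by
      rw [hprod]
      simp only [Int.cast_mul, Int.cast_pow]
    have e2 : (((b * (∏ Q ∈ J, Q) ^ 3 : ℤ)) : M) = (b : M) *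
        ((Q : M) * (((∏ P ∈ J.erase Q, P : ℤ)) : M)) ^ 3 := by
      rw [hprod]
      simp only [Int.cast_mul, Int.cast_pow]
    have e3 : algebraMap M Ω ((Q : M) * (((∏ P ∈ J.erase Q, P : ℤ)) : M)) =
        (((∏ P ∈ J, P : ℤ)) : Ω) := by
      rw [hprod, map_mul, map_intCast, map_intCast, Int.cast_mul]
    have hl := hloc w h2w
    rw [e1, e2] at hl
    have hsq := sq_at (Ω := Ω) hc hD hQ 𝔓 h𝔓 hθ
    have hodd := odd_at hEXQ hc hD hM hγ hQ 𝔓 h𝔓 hθ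
    have h2 := loc2n M Ω (𝓞 M) (𝓞 Ω) w 𝔓 hw (a : M) (b : M)
      (Q : M) (((∏ P ∈ J.erase Q, P : ℤ)) : M) (algebraMap L Ω θ) h hroot
      (val_two h2w) (val_le a w) hb1 hϖ hD' hl (by rw [e3]; exact h0)
      (by
        obtain ⟨s, hs⟩ := hsq (-(∏ P ∈ J.erase Q, P))
        exact ⟨s, by rw [map_neg, map_intCast]; rwa [Int.cast_neg] at hs⟩)
      (by
        obtain ⟨s, hs⟩ := hsq (-2 * (∏ P ∈ J.erase Q, P))
        refine ⟨s, ?_⟩
        rw [map_mul, map_neg, map_intCast, map_ofNat]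
        rwa [Int.cast_mul, Int.cast_neg, Int.cast_ofNat] at hs)
      (by
        obtain ⟨s, hs⟩ := hsq 2
        refine ⟨s, ?_⟩
        rw [map_ofNat]
        rwa [Int.cast_ofNat] at hs) hθ (by rw [map_intCast (algebraMap M Ω)]; exact hodd)
    rw [e3, map_intCast (algebraMap M Ω)] at h2
    exact h2

end main


/-! ### The condition at `2` over the rational numbers -/

theorem ov_w2 : Ov 2 w2 := by
  show ((2 : ℤ) : 𝓞 ℚ) ∈ w2.asIdeal
  have h1 : Rat.HeightOneSpectrum.natGenerator w2 = 2 := by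
    have := (Rat.HeightOneSpectrum.primesEquiv (R := 𝓞 ℚ)).apply_symm_apply
      (⟨2, Nat.prime_two⟩ : Nat.Primes)
    exact congrArg Subtype.val this
  have h2 := (Rat.HeightOneSpectrum.natGenerator_dvd_iff w2 (n := 2)).1 (by rw [h1])
  rw [Ideal.mem_map_of_equiv] at h2
  obtain ⟨x, hx, hx2⟩ := h2
  have h3 : x = ((2 : ℤ) : 𝓞 ℚ) := by
    apply (Rat.IsIntegralClosure.intEquiv (𝓞 ℚ)).injective
    rw [hx2, map_intCast]
    rfl
  rw [← h3]
  exact hx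

theorem pl_map {F F' : Type} [Field F] [Field F'] (φ : F →+* F') {a b : ℤ} {h : F[X]}
    (H : PL F a b h) : PL F' a b (h.map φ) := by
  have hff : (ff F a b).map φ = ff F' a b := by
    simp [ff]
  rcases H with ⟨g, hg⟩ | ⟨x, y, hy, hxy, g, hg⟩
  · left
    refine ⟨g.map φ, ?_⟩
    have := Polynomial.map_dvd φ hg
    rwa [hff, Polynomial.map_sub, Polynomial.map_pow] at this
  · right
    refine ⟨φ x, φ y, (map_ne_zero φ).2 hy, ?_, g.map φ, ?_⟩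
    · have := congrArg φ hxy
      simpa only [map_add, map_mul, map_pow, map_intCast] using this
    · have := Polynomial.map_dvd φ hg
      simpa only [hff, Polynomial.map_sub, Polynomial.map_pow, Polynomial.map_mul,
        Polynomial.map_X, Polynomial.map_C] using this

theorem loc2_of {L : Type} [Field L] [NumberField L] {a b : ℤ} {θ x : L}
    (hC : C2w ℚ (𝓞 ℚ) a b θ x) : Loc2 a b θ x := by
  intro h hh
  have h1 := pl_map φ2 (hC w2 ov_w2 h (by rw [← hh]))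
  rw [Polynomial.map_map] at h1
  have key : ∀ (f g : ℚ →+* ℚ_[2]) (h : ℚ[X]),
      PL ℚ_[2] a b (h.map f) → PL ℚ_[2] a b (h.map g) := by
    intro f g h H
    rwa [RingHom.ext_rat g f]
  exact key _ _ _ h1

end Pool.Agent.H93.PR
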