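import Pool.Agent.H62.PR.Sel0
import Pool.Agent.H62.QM.Sel
import Pool.Agent.H93.PR.Cn4

/-!
# Project PR (helper62), part FWD (helper93)
-/

set_option autoImplicit false
set_option linter.all false

open Polynomial IsDedekindDomain WeierstrassCurve WeierstrassCurve.Affine NumberField
open Pool.Agent.TH115.GD
open scoped Classical IntermediateField

namespace Pool.Agent.H93.PR

open Pool.Agent.N874.PP (Tup chA chB gq tau Two Ev Sq1 U0 sW IsBeta Rt)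
open Pool.Agent.N874.PM (PLoc Lies SelR ShaR)
open Pool.Agent.N922.PQ
open Pool.Agent.H62.PR
open Pool.Agent.H62.QM

instance igq : @IsGalois ℚ _ ℚ _ DivisionRing.toRatAlgebra := by
  have e : (DivisionRing.toRatAlgebra : Algebra ℚ ℚ) = Algebra.id ℚ := Subsingleton.elim _ _
  rw [e]
  infer_instance

theorem discrQ {P : ℤ} (hP : Prime P) : ¬ P ∣ discr ℚ := by
  rw [Rat.numberField_discr]
  intro h
  exact hP.not_unit (isUnit_of_dvd_one h)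

theorem fldQ (a b : ℤ) (J : Finset ℤ) (hJ : ∀ Q ∈ J, IsPr Q) : Fld ℚ a b J := by
  refine ⟨fun P hP h => absurd h (discrQ hP), discrQ Int.prime_two, ?_⟩
  intro Q hQ w hw x
  obtain ⟨n, hn⟩ : ∃ n : ℤ, (n : 𝓞 ℚ) = x := by
    refine ⟨Rat.ringOfIntegersEquiv x, ?_⟩
    apply Rat.ringOfIntegersEquiv.injective
    rw [map_intCast]
    simp
  rw [← hn]
  have hp : Q.natAbs.Prime := Int.prime_iff_natAbs_prime.1 (hJ Q hQ).2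
  haveI : Fact Q.natAbs.Prime := ⟨hp⟩
  have h1 : Q ∣ n ^ (Q.natAbs ^ 2) - n := by
    have h2 : ((n ^ (Q.natAbs ^ 2) - n : ℤ) : ZMod Q.natAbs) = 0 := by
      push_cast
      rw [pow_two, pow_mul, ZMod.pow_card, ZMod.pow_card, sub_self]
    rw [ZMod.intCast_zmod_eq_zero_iff_dvd] at h2
    rwa [Int.natAbs_dvd] at h2
  obtain ⟨k, hk⟩ := h1
  have h3 : ((n : 𝓞 ℚ)) ^ (Q.natAbs ^ 2) - (n : 𝓞 ℚ) = (Q : 𝓞 ℚ) * (k : 𝓞 ℚ) := by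
    rw [← Int.cast_mul, ← hk]
    push_cast
    rfl
  rw [h3]
  exact Ideal.mul_mem_right _ _ hw

theorem fwd_aux (H : Parts2) (hI : S_INT) {L : Type} [Field L] [NumberField L] {a b : ℤ} {θ : L} {X : ℕ}
    {S T : Finset ℤ} {s A B : ℤ → ℤ} {𝔮 : ℤ → HeightOneSpectrum (𝓞 L)}
    (d : Dt a b θ X S T s A B 𝔮) (J : Finset ℤ) (hJ : ∀ Q ∈ J, Q ∈ S)
    (f : (Sep ℚ ≃ₐ[ℚ] Sep ℚ) → Pt (sW (((a * (∏ Q ∈ J, Q) ^ 2 : ℤ)) : ℚ)
      (((b * (∏ Q ∈ J, Q) ^ 3 : ℤ)) : ℚ)) (Sep ℚ))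
    (hf : SelCoc (sW (((a * (∏ Q ∈ J, Q) ^ 2 : ℤ)) : ℚ) (((b * (∏ Q ∈ J, Q) ^ 3 : ℤ)) : ℚ)) f) :
    ∃ α ∈ Mset a b θ S 𝔮, Rel a b (∏ Q ∈ J, Q) θ f α ∧
      (∀ Q ∈ J, U0 (𝔮 Q) ((Q : L) * θ) α) ∧ ∀ Q ∈ S, Q ∉ J → Ev (𝔮 Q) α := by
  obtain ⟨hc, hS, hT, hF, h4, hq, -⟩ := d
  have hn2 : ∀ z : ℤ, ¬ (2 : ℤ) ∣ z ^ 3 + a * z + b := fam_nt hT hF hT.1
  have hD : Dat' a b J := ⟨hF.sq, hn2, fam_nt hT hF hT.2.1, fun Q hQ =>
    ⟨(hS Q (hJ Q hQ)).1, (hS Q (hJ Q hQ)).2.1, hF.rb Q (hJ Q hQ), fam_ns hS hF (hJ Q hQ)⟩⟩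
  have hM : Fld ℚ a b J := fldQ a b J fun Q hQ => (hS Q (hJ Q hQ)).1
  have h6M : (6 : ℚ) ≠ 0 := by norm_num
  obtain ⟨ha, hb⟩ := odd_of hD.n2
  have hur := val_two_un (M := ℚ) hM.two
  have hγ : L⟮algebraMap ℚ L 0⟯ = ⊤ := by
    rw [eq_top_iff]
    intro x _
    exact (L⟮algebraMap ℚ L 0⟯).algebraMap_mem x
  have hnr : ∀ w : HeightOneSpectrum (𝓞 ℚ), Ov 2 w → ∀ t : w.adicCompletion ℚ,
      t ^ 3 + (a : w.adicCompletion ℚ) * t + (b : w.adicCompletion ℚ) ≠ 0 :=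
    fun w hw => H.nr ℚ (𝓞 ℚ) 0 (by simp) w hw a b ha hb
  have hD1 : 0 < (∏ Q ∈ J, Q) := Finset.prod_pos fun Q hQ => (hD.j Q hQ).1.1
  have hD0 : (∏ Q ∈ J, Q) ≠ 0 := hD1.ne'
  have hD8 : (∏ Q ∈ J, Q) % 8 = 1 := prod_mod8 fun Q hQ => (hD.j Q hQ).2.1
  obtain ⟨w₀, hw₀⟩ := exists_over (𝓞 ℚ)
  have hirrD := irr_tw' (F := ℚ) (a := a * (∏ Q ∈ J, Q) ^ 2) (b := b * (∏ Q ∈ J, Q) ^ 3)
    (fun t ht => by
      apply no_root_tw' (hnr w₀ hw₀) hD0 (algebraMap ℚ _ t)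
      have h1 := congrArg (algebraMap ℚ (w₀.adicCompletion ℚ)) ht
      rw [map_zero, map_add, map_add, map_mul, map_pow, map_intCast, map_intCast] at h1
      exact h1)
  have hdisc : 4 * (((a * (∏ Q ∈ J, Q) ^ 2 : ℤ)) : ℚ) ^ 3 +
      27 * (((b * (∏ Q ∈ J, Q) ^ 3 : ℤ)) : ℚ) ^ 2 ≠ 0 := by
    have e : 4 * (((a * (∏ Q ∈ J, Q) ^ 2 : ℤ)) : ℚ) ^ 3 +
      27 * (((b * (∏ Q ∈ J, Q) ^ 3 : ℤ)) : ℚ) ^ 2 =
        (((∏ Q ∈ J, Q) ^ 6 * dsc a b : ℤ) : ℚ) := by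
      simp only [dsc, Int.cast_mul, Int.cast_add, Int.cast_pow, Int.cast_ofNat]
      ring
    rw [e, Int.cast_ne_zero]
    exact mul_ne_zero (pow_ne_zero _ hD0) hD.sq.ne_zero
  have hroot := hc.root
  obtain ⟨β, hβ⟩ := H.p.gb ℚ _ _ h6M hdisc hirrD f hf.coc hf.two
  obtain ⟨h, hh, hn'⟩ := H.p.gn ℚ _ _ h6M hdisc hirrD f hf.coc hf.two β hβ
  have hRt : Rt (((a * (∏ Q ∈ J, Q) ^ 2 : ℤ)) : ℚ)
      (((b * (∏ Q ∈ J, Q) ^ 3 : ℤ)) : ℚ)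
      (((∏ Q ∈ J, Q : ℤ) : L) * θ) := by
    unfold Rt
    rw [map_intCast, map_intCast]
    simp only [Int.cast_mul, Int.cast_pow]
    linear_combination ((∏ Q ∈ J, Q : ℤ) : L) ^ 3 * hroot
  have hn3 := hn' L _ hRt hc.rank
  have hcnd := Pool.Agent.H93.PR.cn_top (L := L) (M := ℚ) (Ω := L) H.p.exq H.p.lie H.p.loc1 hc hD hM hγ (h := h)
    (fun w hw => H.p.glr ℚ (𝓞 ℚ) _ _ h6M hdisc f hf.coc hf.two β h hβ hh w (val_two hw) (hf.fin w))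
    hn3.1
  have hc2 := c2w_sel (Ω := L) (𝓞 ℚ) H.p.glr2 H.sqd H.twg hD0 hD8 hnr hc.minpoly_eq hdisc f
    hf.coc hf.two β h hβ hh hf.fin
  have hl2 : Loc2 a b θ (aeval (((∏ Q ∈ J, Q : ℤ) : L) * θ) h) :=
    loc2_of hc2
  refine ⟨aeval (((∏ Q ∈ J, Q : ℤ) : L) * θ) h, ⟨hn3.1, hn3.2, hl2, ?_⟩,
    ⟨β, h, hβ, hh, rfl⟩, ?_, ?_⟩
  · intro 𝔓 h𝔓
    obtain ⟨P, hP, hP𝔓⟩ := exists_below 𝔓
    by_cases hn : NR a b P
    · exact H.p.p3 L (𝓞 L) a b θ hc hD.sq P hP.2 hn _ hn3.1 hn3.2 𝔓 hP𝔓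
    · by_cases hPJ : P ∈ J
      · obtain ⟨hpr, -, hb', hns⟩ := hD.j P hPJ
        obtain ⟨𝔓₁, 𝔮', h1, h2, h3, h5, h6, h7⟩ := H.p.exq L (𝓞 L) a b θ hc hD.sq P hpr.2 hb' hns
        have hq1 := hq P (hJ P hPJ)
        have hq2 : 𝔮 P = 𝔮' := by
          rcases h7 _ hq1.1 with h8 | h8
          · rw [h8] at hq1
            exact absurd hq1.2 h3.ne
          · exact h8
        have h8 : 𝔓 = 𝔓₁ := by
          rcases h7 _ hP𝔓 with h8 | h8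
          · exact h8
          · exact absurd (h8.trans hq2.symm) (h𝔓 P (hJ P hPJ))
        exact ev_one hI hc hD.sq hpr.2 hb' hns hn3.1 hn3.2 hP𝔓 (by rw [h8]; exact h3)
      · refine hcnd.ev 𝔓 (fun P' hP' hn' h' => hn ?_) (fun Q hQ h' => hPJ ?_)
        · rw [below_unique hP hP' hP𝔓 h']
          exact hn'
        · rw [below_unique hP (hD.j Q hQ).1 hP𝔓 h']
          exact hQ
  · intro Q hQ
    exact hcnd.u0 Q hQ (𝔮 Q) (hq Q (hJ Q hQ)).1 (hq Q (hJ Q hQ)).2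
  · intro Q hQS hQJ
    have hP : IsPr Q := (hS Q hQS).1
    have hP𝔓 := (hq Q hQS).1
    refine hcnd.ev (𝔮 Q) (fun P' hP' hn' h' => ?_) (fun Q' hQ' h' => hQJ ?_)
    · rw [← below_unique hP hP' hP𝔓 h'] at hn'
      apply hn' 0
      have e : (0 : ℤ) ^ 3 + a * 0 + b = b := by ring
      rw [e]
      exact hF.rb Q hQS
    · rw [below_unique hP (hD.j Q' hQ').1 hP𝔓 h']
      exact hQ'

theorem fwd : S_FWD := by
  intro L _ _ a b θ X S T s A B 𝔮 d J D hD f hf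
  have hprod : ∏ Q ∈ J.map (Function.Embedding.subtype _), Q = D := by
    rw [Finset.prod_map, hD]
    rfl
  subst hprod
  obtain ⟨α, hα, hr, h1, h2⟩ := fwd_aux parts2 Pool.Agent.N849.PQ.int d
    (J.map (Function.Embedding.subtype _)) (fun Q hQ => by
      obtain ⟨Q', -, rfl⟩ := Finset.mem_map.1 hQ
      exact Q'.2) f hf
  refine ⟨α, hα, hr, fun i hi => ?_, fun i hi => ?_⟩
  · have h3 := h1 i.1 (Finset.mem_map_of_mem _ hi)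
    show (if U0 (𝔮 i.1) (((i : ℤ) : L) * θ) α then (0 : ZMod 2) else 1) = 0
    rw [if_pos h3]
  · have h3 := h2 i.1 i.2 (fun h => hi (by
      obtain ⟨j, hj, hji⟩ := Finset.mem_map.1 h
      have : j = i := Subtype.ext hji
      rwa [← this]))
    show (if Ev (𝔮 i.1) α then (0 : ZMod 2) else 1) = 0
    rw [if_pos h3]

end Pool.Agent.H93.PR
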