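import Pool.Agent.H62.PR.Cnt0
import Pool.Graph.R_pool_sql_team_seeded_63374d34.N50.PQ.Box
import Pool.Graph.R_pool_sql_team_seeded_63374d34.N50.PQ.Orb

/-!
# Project PR (helper62), parts TY0 and TY1 (helper93)
-/

set_option autoImplicit false
set_option linter.all false

open Matrix
open scoped Classical

namespace Pool.Agent.H93.PR

open Pool.Agent.N874.PP (Tup chA chB gq tau Two)
open Pool.Agent.N922.PQ
open Pool.Agent.N50.PQ
open Pool.Agent.H62.PR

theorem half {D T : Type} [Finite D] (f : D → T) (σ : D → D) (hσ : ∀ d, f (σ d) = f d)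
    (hne : ∀ d, σ d ≠ d) (P : T → Prop) (hP : ∀ t, P t → ∃ d, f d = t) :
    2 * Nat.card {t // P t} ≤ Nat.card D := by
  choose g hg using fun t : {t // P t} => hP t.1 t.2
  have hinj : Function.Injective
      (fun z : {t // P t} × Bool => if z.2 then g z.1 else σ (g z.1)) := by
    rintro ⟨t, b⟩ ⟨t', b'⟩ h
    have ht : t = t' := by
      apply Subtype.ext
      have h1 := congrArg f h
      cases b <;> cases b' <;> simpa [hσ, hg] using h1
    subst ht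
    cases b <;> cases b' <;> simp at h ⊢
    · exact hne _ h
    · exact hne _ h.symm
  have h2 := Nat.card_le_card_of_injective _ hinj
  rw [Nat.card_prod] at h2
  have h3 : Nat.card Bool = 2 := by simp
  rw [h3] at h2
  linarith

theorem ty0 : S_TY0 := by
  intro Q hQ h8 s hs
  refine ⟨fun u B hB => ⟨tt_tau hB.1 u, by rw [chA_tau]; exact hB.2.1,
    by rw [chB_tau]; exact hB.2.2⟩, ?_⟩
  have h1 := card_GQ (fun _ => s) hQ h8 hs
  refine le_trans (Nat.mul_le_mul_left 2 ?_) h1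
  haveI : Fact Q.natAbs.Prime := ⟨pr_nat hQ⟩
  haveI : Finite (GQ (fun _ => s) Q) := inferInstance
  have key : ∀ R : Tup (ZMod Q.natAbs), (∃ B : Tup ℤ, C0 Q s B ∧ tred Q.natAbs B = R) →
      chA R = rd Q s ∧ chB R = 0 ∧ Two R := by
    rintro R ⟨B, hB, rfl⟩
    have e : tred Q.natAbs B = tmap (rd Q) B := rfl
    rw [e]
    refine ⟨?_, ?_, two_tmap hB.1⟩
    · rw [chA_tmap, ← sub_eq_zero, ← map_sub, rd_zero]
      exact hB.2.1
    · rw [chB_tmap, rd_zero]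
      exact hB.2.2
  refine Nat.card_le_card_of_injective (fun R => (⟨R.1, key R.1 R.2⟩ : GQ (fun _ => s) Q)) ?_
  intro R R' h
  exact Subtype.ext (congrArg (fun t : GQ (fun _ => s) Q => t.1) h)

/-! ### TY1 -/

/-- The change of basis. -/
def mv (u : ℤ) (ξ : Fin 3 → ℤ) : Fin 3 → ℤ :=
  ![ξ 0 + 2 * u * ξ 1 - 2 * u ^ 2 * ξ 2, ξ 1 - 2 * u * ξ 2, ξ 2]

lemma dJ (ξ ζ : Fin 3 → ℤ) : ξ ⬝ᵥ JJ *ᵥ ζ = ξ 0 * ζ 2 + ξ 1 * ζ 1 + ξ 2 * ζ 0 := by
  simp [JJ, Matrix.mulVec, dotProduct, Fin.sum_univ_three]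

lemma J0 (ζ : Fin 3 → ℤ) : (JJ *ᵥ ζ) 0 = ζ 2 := by
  simp [JJ, Matrix.mulVec, dotProduct, Fin.sum_univ_three]

lemma J1 (ζ : Fin 3 → ℤ) : (JJ *ᵥ ζ) 1 = ζ 1 := by
  simp [JJ, Matrix.mulVec, dotProduct, Fin.sum_univ_three]

lemma J2 (ζ : Fin 3 → ℤ) : (JJ *ᵥ ζ) 2 = ζ 0 := by
  simp [JJ, Matrix.mulVec, dotProduct, Fin.sum_univ_three]

lemma m0 (B : Tup ℤ) (ζ : Fin 3 → ℤ) : (mat B *ᵥ ζ) 0 = B.x * ζ 0 + B.y * ζ 1 + B.c * ζ 2 := by
  simp [mat, Matrix.mulVec, dotProduct, Fin.sum_univ_three]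

lemma m1 (B : Tup ℤ) (ζ : Fin 3 → ℤ) :
    (mat B *ᵥ ζ) 1 = B.y * ζ 0 + -2 * B.c * ζ 1 + B.z * ζ 2 := by
  simp [mat, Matrix.mulVec, dotProduct, Fin.sum_univ_three]

lemma m2 (B : Tup ℤ) (ζ : Fin 3 → ℤ) : (mat B *ᵥ ζ) 2 = B.c * ζ 0 + B.z * ζ 1 + B.w * ζ 2 := by
  simp [mat, Matrix.mulVec, dotProduct, Fin.sum_univ_three]

lemma mv0 (u : ℤ) (ξ : Fin 3 → ℤ) : mv u ξ 0 = ξ 0 + 2 * u * ξ 1 - 2 * u ^ 2 * ξ 2 := rfl
lemma mv1 (u : ℤ) (ξ : Fin 3 → ℤ) : mv u ξ 1 = ξ 1 - 2 * u * ξ 2 := rfl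
lemma mv2 (u : ℤ) (ξ : Fin 3 → ℤ) : mv u ξ 2 = ξ 2 := rfl

lemma dJ_mv (u : ℤ) (ξ ζ : Fin 3 → ℤ) : mv u ξ ⬝ᵥ JJ *ᵥ mv u ζ = ξ ⬝ᵥ JJ *ᵥ ζ := by
  rw [dJ, dJ, mv0, mv1, mv2, mv0, mv1, mv2]
  ring

lemma mm0 (u : ℤ) (B : Tup ℤ) (ξ : Fin 3 → ℤ) :
    (mat (tau u B) *ᵥ mv u ξ) 0 = (mat B *ᵥ ξ) 0 := by
  rw [m0, m0, mv0, mv1, mv2]
  simp only [tau, gq]
  ring

lemma mm1 (u : ℤ) (B : Tup ℤ) (ξ : Fin 3 → ℤ) :
    (mat (tau u B) *ᵥ mv u ξ) 1 = (mat B *ᵥ ξ) 1 - 2 * u * (mat B *ᵥ ξ) 0 := by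
  rw [m1, m0, m1, mv0, mv1, mv2]
  simp only [tau, gq]
  ring

lemma mm2 (u : ℤ) (B : Tup ℤ) (ξ : Fin 3 → ℤ) :
    (mat (tau u B) *ᵥ mv u ξ) 2 =
      (mat B *ᵥ ξ) 2 + 2 * u * (mat B *ᵥ ξ) 1 - 2 * u ^ 2 * (mat B *ᵥ ξ) 0 := by
  rw [m2, m0, m1, m2, mv0, mv1, mv2]
  simp only [tau, gq]
  ring

lemma c1_tau {Q s : ℤ} {B : Tup ℤ} (h : C1 Q s B) (u : ℤ) : C1 Q s (tau u B) := by
  obtain ⟨ξ, ζ, h1, h2, h3, h4, h5⟩ := h
  refine ⟨mv u ξ, mv u ζ, by rw [dJ_mv]; exact h1, by rw [dJ_mv]; exact h2,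
    by rw [dJ_mv]; exact h3, ?_, ?_⟩
  · have a0 := h4 0
    have a1 := h4 1
    have a2 := h4 2
    rw [J0] at a0
    rw [J1] at a1
    rw [J2] at a2
    intro i
    fin_cases i
    · show Q ∣ (mat (tau u B) *ᵥ mv u ξ) 0 - (JJ *ᵥ mv u ζ) 0
      rw [mm0, J0, mv2]
      exact a0
    · show Q ∣ (mat (tau u B) *ᵥ mv u ξ) 1 - (JJ *ᵥ mv u ζ) 1
      rw [mm1, J1, mv1]
      obtain ⟨k0, hk0⟩ := a0
      obtain ⟨k1, hk1⟩ := a1
      exact ⟨k1 - 2 * u * k0, by linear_combination hk1 - 2 * u * hk0⟩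
    · show Q ∣ (mat (tau u B) *ᵥ mv u ξ) 2 - (JJ *ᵥ mv u ζ) 2
      rw [mm2, J2, mv0]
      obtain ⟨k0, hk0⟩ := a0
      obtain ⟨k1, hk1⟩ := a1
      obtain ⟨k2, hk2⟩ := a2
      exact ⟨k2 + 2 * u * k1 - 2 * u ^ 2 * k0,
        by linear_combination hk2 + 2 * u * hk1 - 2 * u ^ 2 * hk0⟩
  · have a0 := h5 0
    have a1 := h5 1
    have a2 := h5 2
    rw [J0] at a0
    rw [J1] at a1
    rw [J2] at a2
    intro i
    fin_cases i
    · show Q ∣ (mat (tau u B) *ᵥ mv u ζ) 0 + s * (JJ *ᵥ mv u ξ) 0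
      rw [mm0, J0, mv2]
      exact a0
    · show Q ∣ (mat (tau u B) *ᵥ mv u ζ) 1 + s * (JJ *ᵥ mv u ξ) 1
      rw [mm1, J1, mv1]
      obtain ⟨k0, hk0⟩ := a0
      obtain ⟨k1, hk1⟩ := a1
      exact ⟨k1 - 2 * u * k0, by linear_combination hk1 - 2 * u * hk0⟩
    · show Q ∣ (mat (tau u B) *ᵥ mv u ζ) 2 + s * (JJ *ᵥ mv u ξ) 2
      rw [mm2, J2, mv0]
      obtain ⟨k0, hk0⟩ := a0
      obtain ⟨k1, hk1⟩ := a1
      obtain ⟨k2, hk2⟩ := a2
      exact ⟨k2 + 2 * u * k1 - 2 * u ^ 2 * k0,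
        by linear_combination hk2 + 2 * u * hk1 - 2 * u ^ 2 * hk0⟩

section fld

variable {F : Type} [Field F]

/-- `J v` for the standard vector `v` of a point. -/
def jv : Option F → F × F × F
  | none => (0, 0, 1)
  | some u => (1, 2 * u, -2 * u ^ 2)

/-- `v ⬝ J v'` -/
def tv : Option F → Option F → F
  | none, none => 0
  | none, some _ => 1
  | some _, none => 1
  | some u, some u' => -2 * (u - u') ^ 2

lemma tv_symm (p p' : Option F) : tv p p' = tv p' p := by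
  cases p <;> cases p' <;> simp [tv]
  ring_nf
  tauto

/-- The tuple. -/
noncomputable def G (s : F) (p p' : Option F) (ρ : F) : Tup F :=
  ⟨ρ / tv p p' * ((jv p').1 * (jv p').1) - s / (ρ * tv p p') * ((jv p).1 * (jv p).1),
   ρ / tv p p' * ((jv p').1 * (jv p').2.1) - s / (ρ * tv p p') * ((jv p).1 * (jv p).2.1),
   ρ / tv p p' * ((jv p').1 * (jv p').2.2) - s / (ρ * tv p p') * ((jv p).1 * (jv p).2.2),
   ρ / tv p p' * ((jv p').2.1 * (jv p').2.2) - s / (ρ * tv p p') * ((jv p).2.1 * (jv p).2.2),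
   ρ / tv p p' * ((jv p').2.2 * (jv p').2.2) - s / (ρ * tv p p') * ((jv p).2.2 * (jv p).2.2)⟩

lemma G_symm {s : F} (hs : s ≠ 0) (p p' : Option F) {ρ : F} (hρ : ρ ≠ 0) :
    G s p' p (-s / ρ) = G s p p' ρ := by
  have e1 : -s / ρ / tv p' p = -(s / (ρ * tv p p')) := by
    rw [tv_symm, neg_div, neg_div, div_div]
  have e2 : s / (-s / ρ * tv p' p) = -(ρ / tv p p') := by
    rw [tv_symm]
    by_cases ht : tv p p' = 0
    · simp [ht]
    · field_simp
  unfold G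
  rw [e1, e2]
  apply Tup.ext <;> simp only <;> ring

lemma iso (h2 : (2 : F) ≠ 0) {a b c : F} (h : a * c + b * b + c * a = 0)
    (hne : ¬ (a = 0 ∧ b = 0 ∧ c = 0)) :
    ∃ (l : F) (p : Option F), l ≠ 0 ∧ c = l * (jv p).1 ∧ b = l * (jv p).2.1 ∧
      a = l * (jv p).2.2 := by
  by_cases hc : c = 0
  · subst hc
    have hb : b = 0 := by
      have : b * b = 0 := by linear_combination h
      exact mul_self_eq_zero.1 this
    subst hb
    refine ⟨a, none, fun h => hne ⟨h, rfl, rfl⟩, ?_, ?_, ?_⟩ <;> simp [jv]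
  · refine ⟨c, some (b / (2 * c)), hc, ?_, ?_, ?_⟩
    · simp [jv]
    · show b = c * (2 * (b / (2 * c)))
      field_simp
    · show a = c * (-2 * (b / (2 * c)) ^ 2)
      field_simp
      linear_combination h

/-- The linear equations determine the tuple. -/
lemma det (h2 : (2 : F) ≠ 0) (s : F) (B : Tup F) (p p' : Option F) (ρ : F) (hρ : ρ ≠ 0)
    (hp : p ≠ p')
    (e0 : B.x * (jv p).2.2 + B.y * (jv p).2.1 + B.c * (jv p).1 = ρ * (jv p').1)
    (e1 : B.y * (jv p).2.2 + -2 * B.c * (jv p).2.1 + B.z * (jv p).1 = ρ * (jv p').2.1)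
    (e2 : B.c * (jv p).2.2 + B.z * (jv p).2.1 + B.w * (jv p).1 = ρ * (jv p').2.2)
    (f0 : ρ * (B.x * (jv p').2.2 + B.y * (jv p').2.1 + B.c * (jv p').1) = -s * (jv p).1)
    (f1 : ρ * (B.y * (jv p').2.2 + -2 * B.c * (jv p').2.1 + B.z * (jv p').1) = -s * (jv p).2.1)
    (f2 : ρ * (B.c * (jv p').2.2 + B.z * (jv p').2.1 + B.w * (jv p').1) = -s * (jv p).2.2) :
    B = G s p p' ρ := by
  obtain ⟨x, y, c, z, w⟩ := B
  rcases p with _ | u <;> rcases p' with _ | v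
  · exact absurd rfl hp
  · simp only [jv] at e0 e1 e2 f0 f1 f2
    simp only [mul_one, mul_zero, add_zero, zero_add] at e0 e1 e2 f2
    simp only [mul_one] at f0 f1
    have hz : z = 2 * v ^ 2 * y + 4 * v * c := by
      have := mul_left_cancel₀ hρ (f1.trans (by ring : -s * 0 = ρ * 0))
      linear_combination this
    have hw : w = -s / ρ - 2 * v * z + 2 * v ^ 2 * c := by
      field_simp
      linear_combination f2
    subst hw hz e0 e1 e2
    apply Tup.ext <;> simp only [G, tv, jv] <;> field_simp <;> ring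
  · simp only [jv] at e0 e1 e2 f0 f1 f2
    simp only [mul_one, mul_zero, add_zero, zero_add] at e0 e1 e2 f0 f1 f2
    have hx : x = -s / ρ := by field_simp; linear_combination f0
    have hy : y = -s / ρ * (2 * u) := by field_simp; linear_combination f1
    have hc : c = -s / ρ * (-2 * u ^ 2) := by field_simp; linear_combination f2
    have hz : z = 2 * u ^ 2 * y + 4 * u * c := by linear_combination e1
    have hw : w = ρ + 2 * u ^ 2 * c - 2 * u * z := by linear_combination e2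
    subst hw hz hc hy hx
    apply Tup.ext <;> simp only [G, tv, jv] <;> field_simp <;> ring
  · have huv : u - v ≠ 0 := by
      intro h
      exact hp (congrArg some (sub_eq_zero.1 h))
    simp only [jv] at e0 e1 e2 f0 f1 f2
    obtain ⟨g, hg⟩ : ∃ g, g = G s (some u) (some v) ρ := ⟨_, rfl⟩
    rw [← hg]
    have g0 : g.x * (-2 * u ^ 2) + g.y * (2 * u) + g.c * 1 = ρ * 1 := by
      rw [hg]; simp only [G, tv, jv]; field_simp; ring
    have g1 : g.y * (-2 * u ^ 2) + -2 * g.c * (2 * u) + g.z * 1 = ρ * (2 * v) := by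
      rw [hg]; simp only [G, tv, jv]; field_simp; ring
    have g2 : g.c * (-2 * u ^ 2) + g.z * (2 * u) + g.w * 1 = ρ * (-2 * v ^ 2) := by
      rw [hg]; simp only [G, tv, jv]; field_simp; ring
    have k0 : ρ * (g.x * (-2 * v ^ 2) + g.y * (2 * v) + g.c * 1) = -s * 1 := by
      rw [hg]; simp only [G, tv, jv]; field_simp; ring
    have k1 : ρ * (g.y * (-2 * v ^ 2) + -2 * g.c * (2 * v) + g.z * 1) = -s * (2 * u) := by
      rw [hg]; simp only [G, tv, jv]; field_simp; ring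
    have k2 : ρ * (g.c * (-2 * v ^ 2) + g.z * (2 * v) + g.w * 1) = -s * (-2 * u ^ 2) := by
      rw [hg]; simp only [G, tv, jv]; field_simp; ring
    have q0 := mul_left_cancel₀ hρ (f0.trans k0.symm)
    have q1 := mul_left_cancel₀ hρ (f1.trans k1.symm)
    have q2 := mul_left_cancel₀ hρ (f2.trans k2.symm)
    obtain ⟨X, hX⟩ : ∃ X, X = x - g.x := ⟨_, rfl⟩
    obtain ⟨Y, hY⟩ : ∃ Y, Y = y - g.y := ⟨_, rfl⟩
    obtain ⟨Z, hZ⟩ : ∃ Z, Z = z - g.z := ⟨_, rfl⟩
    have d1 : 2 * (u - v) * (Y - (u + v) * X) = 0 := by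
      rw [hX, hY]
      linear_combination e0 - g0 - q0
    have d1' : Y = (u + v) * X := by
      have := (mul_eq_zero.1 d1).resolve_left (mul_ne_zero h2 huv)
      linear_combination this
    have d2 : c - g.c = -2 * u * v * X := by
      have : c - g.c = 2 * u ^ 2 * X - 2 * u * Y := by
        rw [hX, hY]
        linear_combination e0 - g0
      rw [this, d1']
      ring
    have d3 : 2 * (u - v) * ((u + v) * Y + 2 * (c - g.c)) = 0 := by
      rw [hY]
      linear_combination -(e1 - g1 - q1)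
    have d4 : (u - v) ^ 2 * X = 0 := by
      have := (mul_eq_zero.1 d3).resolve_left (mul_ne_zero h2 huv)
      rw [d2, d1'] at this
      linear_combination this
    have hX0 : X = 0 := (mul_eq_zero.1 d4).resolve_left (pow_ne_zero 2 huv)
    rw [hX0, mul_zero] at d1' d2
    have hc : c = g.c := sub_eq_zero.1 d2
    have hx : x = g.x := sub_eq_zero.1 (hX.symm.trans hX0)
    have hy : y = g.y := sub_eq_zero.1 (hY.symm.trans d1')
    rw [hc, hy] at e1
    have hz : z = g.z := by linear_combination e1 - g1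
    rw [hc, hz] at e2
    have hw : w = g.w := by linear_combination e2 - g2
    exact Tup.ext hx hy hc hz hw

/-- The parameters. -/
abbrev Dm (F : Type) [Field F] : Type := {q : Option F × Option F // q.1 ≠ q.2} × Fˣ

lemma card_Dm [Finite F] : Nat.card (Dm F) ≤ Nat.card F ^ 3 := by
  haveI := Fintype.ofFinite F
  rw [Nat.card_prod]
  have h1 : Nat.card {q : Option F × Option F // q.1 ≠ q.2} = (Nat.card F + 1) * Nat.card F := by
    rw [Nat.card_eq_fintype_card, Nat.card_eq_fintype_card]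
    have h2 : Fintype.card {q : Option F × Option F // q.1 ≠ q.2} =
        (Finset.univ : Finset (Option F)).offDiag.card := by
      rw [Fintype.card_subtype]
      congr 1
      ext q
      simp
    rw [h2, Finset.offDiag_card, Finset.card_univ, Fintype.card_option]
    have : (Fintype.card F + 1) * (Fintype.card F + 1) =
      (Fintype.card F + 1) * Fintype.card F + (Fintype.card F + 1) := by ring
    omega
  have h2 : Nat.card Fˣ = Nat.card F - 1 := by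
    rw [Nat.card_units]
  rw [h1, h2]
  obtain ⟨n, hn⟩ : ∃ n, Nat.card F = n + 1 := ⟨Nat.card F - 1, by
    have := Nat.card_pos (α := F)
    omega⟩
  rw [hn]
  simp only [Nat.add_sub_cancel]
  nlinarith [Nat.zero_le n]

end fld

lemma two_ne {Q : ℤ} (hQ : IsPr Q) (h8 : Q % 8 = 1) : (2 : ZMod Q.natAbs) ≠ 0 := by
  intro h0
  have h1 : rd Q 2 = 0 := by rw [map_ofNat]; exact h0
  rw [rd_zero] at h1
  have h2 := Int.le_of_dvd (by norm_num) h1
  have h3 := hQ.1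
  have h4 : Q = 1 := by omega
  have h5 := (pr_nat hQ).one_lt
  rw [h4] at h5
  norm_num at h5

theorem ty1 : S_TY1 := by
  intro Q hQ h8 s hs
  refine ⟨fun u B hB => c1_tau hB u, ?_⟩
  haveI : Fact Q.natAbs.Prime := ⟨pr_nat hQ⟩
  have hs' : (rd Q s : ZMod Q.natAbs) ≠ 0 := fun h => hs ((rd_zero Q s).1 h)
  have h2 := two_ne hQ h8
  have hm := half (D := Dm (ZMod Q.natAbs))
    (fun d => G (rd Q s) d.1.1.1 d.1.1.2 (d.2 : ZMod Q.natAbs))
    (fun d => (⟨(d.1.1.2, d.1.1.1), fun h => d.1.2 h.symm⟩,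
      Units.mk0 (-(rd Q s) / (d.2 : ZMod Q.natAbs))
        (div_ne_zero (neg_ne_zero.2 hs') d.2.ne_zero)))
    (fun d => G_symm hs' _ _ d.2.ne_zero)
    (by
      intro d h
      have h3 : d.1.1.2 = d.1.1.1 := congrArg (fun d => d.1.1.1) h
      exact d.1.2 h3.symm)
    (fun R => ∃ B, C1 Q s B ∧ tred Q.natAbs B = R) ?_
  · have h3 := card_Dm (F := ZMod Q.natAbs)
    rw [Nat.card_zmod] at h3
    exact hm.trans h3
  · rintro R ⟨B, ⟨ξ, ζ, a1, a2, a3, a4, a5⟩, rfl⟩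
    rw [dJ, ← rd_zero, map_add, map_add, map_mul, map_mul, map_mul] at a1 a2
    rw [dJ, ← rd_zero, map_add, map_add, map_mul, map_mul, map_mul] at a3
    have b0 := a4 0
    have b1 := a4 1
    have b2 := a4 2
    have c0 := a5 0
    have c1 := a5 1
    have c2 := a5 2
    rw [J0, m0, ← rd_zero] at b0 c0
    rw [J1, m1, ← rd_zero] at b1 c1
    rw [J2, m2, ← rd_zero] at b2 c2
    simp only [map_add, map_sub, map_mul, map_neg, map_ofNat] at b0 b1 b2 c0 c1 c2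
    obtain ⟨l, p, hl, l0, l1, l2⟩ := iso h2 a1 (by
      rintro ⟨k0, k1, k2⟩
      apply a3
      rw [k0, k1, k2]
      ring)
    obtain ⟨m, p', hm0, n0, n1, n2⟩ := iso h2 a2 (by
      rintro ⟨k0, k1, k2⟩
      apply a3
      rw [k0, k1, k2]
      ring)
    have hpp : p ≠ p' := by
      rintro rfl
      apply a3
      rw [l0, l1, l2] at a1 ⊢
      rw [n0, n1, n2]
      have h5 : l * l * ((jv p).2.2 * (jv p).1 + (jv p).2.1 * (jv p).2.1 +
        (jv p).1 * (jv p).2.2) = 0 := by linear_combination a1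
      have h6 := (mul_eq_zero.1 h5).resolve_left (mul_ne_zero hl hl)
      linear_combination (l * m) * h6
    refine ⟨(⟨(p, p'), hpp⟩, Units.mk0 (m / l) (div_ne_zero hm0 hl)), ?_⟩
    symm
    simp only [l0, l1, l2, n0, n1, n2] at b0 b1 b2 c0 c1 c2
    refine det h2 _ _ p p' (m / l) (div_ne_zero hm0 hl) hpp ?_ ?_ ?_ ?_ ?_ ?_
    · show rd Q B.x * (jv p).2.2 + rd Q B.y * (jv p).2.1 + rd Q B.c * (jv p).1 =
        m / l * (jv p').1
      field_simp
      linear_combination b0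
    · show rd Q B.y * (jv p).2.2 + -2 * rd Q B.c * (jv p).2.1 + rd Q B.z * (jv p).1 =
        m / l * (jv p').2.1
      field_simp
      linear_combination b1
    · show rd Q B.c * (jv p).2.2 + rd Q B.z * (jv p).2.1 + rd Q B.w * (jv p).1 =
        m / l * (jv p').2.2
      field_simp
      linear_combination b2
    · show m / l * (rd Q B.x * (jv p').2.2 + rd Q B.y * (jv p').2.1 + rd Q B.c * (jv p').1) =
        -rd Q s * (jv p).1
      field_simp
      linear_combination c0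
    · show m / l * (rd Q B.y * (jv p').2.2 + -2 * rd Q B.c * (jv p').2.1 +
        rd Q B.z * (jv p').1) = -rd Q s * (jv p).2.1
      field_simp
      linear_combination c1
    · show m / l * (rd Q B.c * (jv p').2.2 + rd Q B.z * (jv p').2.1 + rd Q B.w * (jv p').1) =
        -rd Q s * (jv p).2.2
      field_simp
      linear_combination c2

end Pool.Agent.H93.PR
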