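import Pool.Agent.H93.PR.Ty01

/-!
# Project PR (helper62), part TY2 (helper93)
-/

set_option autoImplicit false
set_option linter.all false

open Matrix
open scoped Classical

namespace Pool.Agent.H93.PR

open Pool.Agent.N874.PP (Tup chA chB gq tau Two)
open Pool.Agent.N922.PQ
open Pool.Agent.N50.PQ
open Pool.Agent.H62.PR

lemma dc {Q a b : ℤ} (h : Q ∣ a) (e : a = b) : Q ∣ b := e ▸ h

lemma c2w {Q s : ℤ} {B : Tup ℤ} {ξ : Fin 3 → ℤ} (h2 : Q ^ 2 ∣ ξ ⬝ᵥ JJ *ᵥ ξ)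
    (h3 : ∀ i j, Q ∣ mat B i j - (JJ *ᵥ ξ) i * (JJ *ᵥ ξ) j)
    (h4 : ∀ i, Q ^ 2 ∣ (mat B *ᵥ ξ) i) (h5 : Q ^ 3 ∣ chA B - s * Q ^ 2) (u : ℤ) :
    Q ^ 2 ∣ mv u ξ ⬝ᵥ JJ *ᵥ mv u ξ ∧
      (∀ i j, Q ∣ mat (tau u B) i j - (JJ *ᵥ mv u ξ) i * (JJ *ᵥ mv u ξ) j) ∧
      (∀ i, Q ^ 2 ∣ (mat (tau u B) *ᵥ mv u ξ) i) ∧ Q ^ 3 ∣ chA (tau u B) - s * Q ^ 2 := by
  refine ⟨by rw [dJ_mv]; exact h2, ?_, ?_, by rw [chA_tau]; exact h5⟩
  · obtain ⟨k00, e00⟩ := h3 0 0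
    obtain ⟨k01, e01⟩ := h3 0 1
    obtain ⟨k02, e02⟩ := h3 0 2
    obtain ⟨k11, e11⟩ := h3 1 1
    obtain ⟨k12, e12⟩ := h3 1 2
    obtain ⟨k22, e22⟩ := h3 2 2
    rw [J0] at e00 e01 e02
    rw [J1] at e01 e11 e12
    rw [J2] at e02 e12 e22
    replace e22 : B.w - ξ 0 * ξ 0 = Q * k22 := e22
    simp only [mat, Matrix.of_apply, Matrix.cons_val', Matrix.cons_val_zero, Matrix.cons_val_one,
      Matrix.cons_val_two, Matrix.head_cons, Matrix.tail_cons, Matrix.empty_val',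
      Matrix.cons_val_fin_one, Matrix.cons_val] at e00 e01 e02 e11 e12 e22
    have q00 : (tau u B).x - mv u ξ 2 * mv u ξ 2 = Q * k00 := by
      rw [mv2]
      simp only [tau, gq]
      linear_combination e00
    have q01 : (tau u B).y - mv u ξ 2 * mv u ξ 1 = Q * (k01 - 2 * u * k00) := by
      rw [mv2, mv1]
      simp only [tau, gq]
      linear_combination e01 - 2 * u * e00
    have q02 : (tau u B).c - mv u ξ 2 * mv u ξ 0 = Q * (k02 + 2 * u * k01 - 2 * u ^ 2 * k00) := by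
      rw [mv2, mv0]
      simp only [tau, gq]
      linear_combination e02 + 2 * u * e01 - 2 * u ^ 2 * e00
    have q11 : -2 * (tau u B).c - mv u ξ 1 * mv u ξ 1 =
        Q * (k11 - 4 * u * k01 + 4 * u ^ 2 * k00) := by
      rw [mv1]
      simp only [tau, gq]
      linear_combination e11 - 4 * u * e01 + 4 * u ^ 2 * e00
    have q12 : (tau u B).z - mv u ξ 1 * mv u ξ 0 =
        Q * (k12 + 2 * u * k11 - 2 * u * k02 - 6 * u ^ 2 * k01 + 4 * u ^ 3 * k00) := by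
      rw [mv1, mv0]
      simp only [tau, gq]
      linear_combination e12 + 2 * u * e11 - 2 * u * e02 - 6 * u ^ 2 * e01 + 4 * u ^ 3 * e00
    have q22 : (tau u B).w - mv u ξ 0 * mv u ξ 0 =
        Q * (k22 + 4 * u * k12 + 4 * u ^ 2 * k11 - 4 * u ^ 2 * k02 - 8 * u ^ 3 * k01 +
          4 * u ^ 4 * k00) := by
      rw [mv0]
      simp only [tau, gq]
      linear_combination e22 + 4 * u * e12 + 4 * u ^ 2 * e11 - 4 * u ^ 2 * e02 -
        8 * u ^ 3 * e01 + 4 * u ^ 4 * e00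
    intro i j
    fin_cases i <;> fin_cases j
    · exact ⟨_, by
        show (tau u B).x - (JJ *ᵥ mv u ξ) 0 * (JJ *ᵥ mv u ξ) 0 = _
        rw [J0]; exact q00⟩
    · exact ⟨_, by
        show (tau u B).y - (JJ *ᵥ mv u ξ) 0 * (JJ *ᵥ mv u ξ) 1 = _
        rw [J0, J1]; exact q01⟩
    · exact ⟨_, by
        show (tau u B).c - (JJ *ᵥ mv u ξ) 0 * (JJ *ᵥ mv u ξ) 2 = _
        rw [J0, J2]; exact q02⟩
    · exact ⟨_, by
        show (tau u B).y - (JJ *ᵥ mv u ξ) 1 * (JJ *ᵥ mv u ξ) 0 = _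
        rw [J0, J1, mul_comm]; exact q01⟩
    · exact ⟨_, by
        show -2 * (tau u B).c - (JJ *ᵥ mv u ξ) 1 * (JJ *ᵥ mv u ξ) 1 = _
        rw [J1]; exact q11⟩
    · exact ⟨_, by
        show (tau u B).z - (JJ *ᵥ mv u ξ) 1 * (JJ *ᵥ mv u ξ) 2 = _
        rw [J1, J2]; exact q12⟩
    · exact ⟨_, by
        show (tau u B).c - (JJ *ᵥ mv u ξ) 2 * (JJ *ᵥ mv u ξ) 0 = _
        rw [J0, J2, mul_comm]; exact q02⟩
    · exact ⟨_, by
        show (tau u B).z - (JJ *ᵥ mv u ξ) 2 * (JJ *ᵥ mv u ξ) 1 = _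
        rw [J1, J2, mul_comm]; exact q12⟩
    · exact ⟨_, by
        show (tau u B).w - (JJ *ᵥ mv u ξ) 2 * (JJ *ᵥ mv u ξ) 2 = _
        rw [J2]; exact q22⟩
  · obtain ⟨k0, e0⟩ := h4 0
    obtain ⟨k1, e1⟩ := h4 1
    obtain ⟨k2, e2⟩ := h4 2
    intro i
    fin_cases i
    · show Q ^ 2 ∣ (mat (tau u B) *ᵥ mv u ξ) 0
      rw [mm0]
      exact ⟨k0, e0⟩
    · show Q ^ 2 ∣ (mat (tau u B) *ᵥ mv u ξ) 1
      rw [mm1]
      exact ⟨k1 - 2 * u * k0, by linear_combination e1 - 2 * u * e0⟩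
    · show Q ^ 2 ∣ (mat (tau u B) *ᵥ mv u ξ) 2
      rw [mm2]
      exact ⟨k2 + 2 * u * k1 - 2 * u ^ 2 * k0, by
        linear_combination e2 + 2 * u * e1 - 2 * u ^ 2 * e0⟩

lemma c2_tau {Q s : ℤ} {B : Tup ℤ} (h : C2 Q s B) (u : ℤ) : C2 Q s (tau u B) := by
  obtain ⟨ξ, h1, h2, h3, h4, h5⟩ := h
  refine ⟨mv u ξ, ?_, c2w h2 h3 h4 h5 u⟩
  · by_contra hcon
    push Not at hcon
    obtain ⟨k0, hk0⟩ := hcon 0
    obtain ⟨k1, hk1⟩ := hcon 1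
    obtain ⟨k2, hk2⟩ := hcon 2
    rw [mv0] at hk0
    rw [mv1] at hk1
    rw [mv2] at hk2
    obtain ⟨i, hi⟩ := h1
    apply hi
    fin_cases i
    · exact ⟨k0 - 2 * u * k1 - 2 * u ^ 2 * k2, by
        show ξ 0 = _
        linear_combination hk0 - 2 * u * hk1 - 2 * u ^ 2 * hk2⟩
    · exact ⟨k1 + 2 * u * k2, by
        show ξ 1 = _
        linear_combination hk1 + 2 * u * hk2⟩
    · exact ⟨k2, hk2⟩

lemma digit {Q : ℤ} (hQ : IsPr Q) {n r : ℤ} (i k : ℕ) (h : Q ^ i ∣ n - r) :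
    ∃ a : Fin (Q.natAbs ^ k), Q ^ (i + k) ∣ n - (r + Q ^ i * ((a : ℕ) : ℤ)) := by
  obtain ⟨m, hm⟩ := h
  have hq := pr_cast hQ
  have hk : (0 : ℤ) < Q ^ k := pow_pos hQ.1 k
  have h1 := Int.emod_nonneg m hk.ne'
  have h2 := Int.emod_lt_of_pos m hk
  refine ⟨⟨(m % Q ^ k).toNat, ?_⟩, ?_⟩
  · zify
    rw [Int.toNat_of_nonneg h1, abs_of_pos hQ.1]
    exact h2
  · simp only
    rw [Int.toNat_of_nonneg h1]
    refine ⟨m / Q ^ k, ?_⟩
    have h3 := Int.mul_ediv_add_emod m (Q ^ k)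
    rw [pow_add]
    linear_combination hm - Q ^ i * h3

/-- representative of `l ^ 2` -/
noncomputable def rl {n : ℕ} (l : (ZMod n)ˣ) : ℤ := (((l : ZMod n) ^ 2).val : ℤ)

/-- representative of `- s / l ^ 2` -/
noncomputable def rs' {n : ℕ} (s : ZMod n) (l : (ZMod n)ˣ) : ℤ :=
  ((-s * (((l⁻¹ : (ZMod n)ˣ) : ZMod n)) ^ 2).val : ℤ)

lemma core {Q s : ℤ} (hQ : IsPr Q) (h8 : Q % 8 = 1) {x y c z w a b l : ℤ} (ha : Q ∣ b)
    (hl : ¬ Q ∣ l) (hi : Q ^ 2 ∣ a * l + b * b + l * a)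
    (hx : Q ∣ x - l * l) (hy : Q ∣ y - l * b) (hc : Q ∣ c - l * a) (hz : Q ∣ z - b * a)
    (hw : Q ∣ w - a * a)
    (e0 : Q ^ 2 ∣ x * a + y * b + c * l) (e1 : Q ^ 2 ∣ y * a + -2 * c * b + z * l)
    (e2 : Q ^ 2 ∣ c * a + z * b + w * l)
    (hch : Q ^ 3 ∣ -3 * c ^ 2 - 2 * y * z - x * w - s * Q ^ 2) :
    ∃ (v : (ZMod Q.natAbs)ˣ) (k1 k2 : Fin (Q.natAbs ^ 2)) (k3 k4 : Fin (Q.natAbs ^ 1)),
      Q ^ 3 ∣ x - (rl v + Q * (k1 : ℕ)) ∧ Q ^ 3 ∣ y - Q * (k2 : ℕ) ∧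
      Q ^ 3 ∣ c - Q ^ 2 * (k3 : ℕ) ∧ Q ^ 3 ∣ z - Q ^ 2 * (k4 : ℕ) ∧
      Q ^ 3 ∣ w - Q ^ 2 * rs' (rd Q s) v := by
  haveI : Fact Q.natAbs.Prime := ⟨pr_nat hQ⟩
  have hpr : Prime Q := hQ.2
  have hQ0 : Q ≠ 0 := hQ.1.ne'
  have h2 : ¬ Q ∣ 2 := by
    intro h
    have h1 := two_ne hQ h8
    apply h1
    have := (rd_zero Q 2).2 h
    rwa [map_ofNat] at this
  -- `Q ^ 2` divides `a`
  have hbb : Q ^ 2 ∣ b * b := by
    rw [pow_two]; exact mul_dvd_mul ha ha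
  have hcop : IsCoprime (Q ^ 2) l := by
    apply IsCoprime.pow_left
    exact (Prime.coprime_iff_not_dvd hpr).2 hl
  have hcop2 : IsCoprime (Q ^ 2) (2 * l) := by
    refine IsCoprime.mul_right ?_ hcop
    apply IsCoprime.pow_left
    exact (Prime.coprime_iff_not_dvd hpr).2 h2
  have ha2 : Q ^ 2 ∣ a := by
    have h3 : Q ^ 2 ∣ (2 * l) * a := by
      have := dvd_sub hi hbb
      exact dc this (by ring)
    exact hcop2.dvd_of_dvd_mul_left h3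
  have ha1 : Q ∣ a := (dvd_pow_self Q two_ne_zero).trans ha2
  have hy1 : Q ∣ y := by
    have := dvd_add hy (Dvd.dvd.mul_left ha l)
    simpa using this
  have hyb : Q ^ 2 ∣ y * b := by rw [pow_two]; exact mul_dvd_mul hy1 ha
  have hc2 : Q ^ 2 ∣ c := by
    have h3 : Q ^ 2 ∣ l * c := by
      have := dvd_sub (dvd_sub e0 (Dvd.dvd.mul_left ha2 x)) hyb
      exact dc this (by ring)
    exact hcop.dvd_of_dvd_mul_left h3
  have hz2 : Q ^ 2 ∣ z := by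
    have h3 : Q ^ 2 ∣ l * z := by
      have := dvd_add (dvd_sub e1 (Dvd.dvd.mul_left ha2 y)) (Dvd.dvd.mul_right hc2 (2 * b))
      exact dc this (by ring)
    exact hcop.dvd_of_dvd_mul_left h3
  have hw2 : Q ^ 2 ∣ w := by
    have h3 : Q ^ 2 ∣ l * w := by
      have := dvd_sub (dvd_sub e2 (Dvd.dvd.mul_left ha2 c)) (Dvd.dvd.mul_right hz2 b)
      exact dc this (by ring)
    exact hcop.dvd_of_dvd_mul_left h3
  -- the unit
  have hl0 : (rd Q l : ZMod Q.natAbs) ≠ 0 := fun h => hl ((rd_zero Q l).1 h)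
  obtain ⟨v, hv⟩ : ∃ v : (ZMod Q.natAbs)ˣ, (v : ZMod Q.natAbs) = rd Q l := ⟨Units.mk0 _ hl0, rfl⟩
  have hval : ∀ t : ZMod Q.natAbs, (rd Q ((t.val : ℕ) : ℤ)) = t := by
    intro t
    rw [map_natCast, ZMod.natCast_zmod_val]
  have hxl : Q ∣ x - rl v := by
    rw [← rd_zero, map_sub, rl, hval, hv, ← map_pow, ← map_sub, rd_zero]
    exact dc hx (by ring)
  obtain ⟨w', hw'⟩ := hw2
  obtain ⟨c', hc'⟩ := hc2
  obtain ⟨y', hy'⟩ := hy1
  obtain ⟨z', hz'⟩ := hz2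
  have hxw : Q ∣ x * w' + s := by
    obtain ⟨k, hk⟩ := hch
    refine ⟨-k - 3 * Q * c' ^ 2 - 2 * y' * z', ?_⟩
    have hQ2 : Q ^ 2 ≠ 0 := pow_ne_zero 2 hQ0
    apply mul_left_cancel₀ hQ2
    rw [hw', hc', hy', hz'] at hk
    linear_combination -hk
  have hww : Q ∣ w' - rs' (rd Q s) v := by
    rw [← rd_zero, map_sub, rs', hval]
    rw [← rd_zero, map_add, map_mul] at hxw
    rw [← rd_zero, map_sub, sub_eq_zero, rl, hval] at hxl
    rw [hxl] at hxw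
    have hvi : (v : ZMod Q.natAbs) * ((v⁻¹ : (ZMod Q.natAbs)ˣ) : ZMod Q.natAbs) = 1 := by
      rw [← Units.val_mul, mul_inv_cancel, Units.val_one]
    obtain ⟨t, ht⟩ : ∃ t, t = ((v⁻¹ : (ZMod Q.natAbs)ˣ) : ZMod Q.natAbs) := ⟨_, rfl⟩
    rw [← ht] at hvi ⊢
    linear_combination t ^ 2 * hxw - (rd Q w') * ((v : ZMod Q.natAbs) * t + 1) * hvi
  obtain ⟨k1, hk1⟩ := digit hQ 1 2 (n := x) (r := rl v) (by rw [pow_one]; exact hxl)
  obtain ⟨k2, hk2⟩ := digit hQ 1 2 (n := y) (r := 0) (by rw [pow_one, sub_zero]; exact ⟨y', hy'⟩)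
  obtain ⟨k3, hk3⟩ := digit hQ 2 1 (n := c) (r := 0) (by rw [sub_zero]; exact ⟨c', hc'⟩)
  obtain ⟨k4, hk4⟩ := digit hQ 2 1 (n := z) (r := 0) (by rw [sub_zero]; exact ⟨z', hz'⟩)
  refine ⟨v, k1, k2, k3, k4, ?_, ?_, ?_, ?_, ?_⟩
  · rw [pow_one] at hk1
    exact hk1
  · rw [pow_one, zero_add] at hk2
    exact hk2
  · rw [zero_add] at hk3
    exact hk3
  · rw [zero_add] at hk4
    exact hk4
  · rw [hw', ← mul_sub, pow_succ]
    exact mul_dvd_mul_left _ hww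

lemma tred_eq {Q : ℤ} (hQ : IsPr Q) {B B' : Tup ℤ} (hx : Q ^ 3 ∣ B.x - B'.x)
    (hy : Q ^ 3 ∣ B.y - B'.y) (hc : Q ^ 3 ∣ B.c - B'.c) (hz : Q ^ 3 ∣ B.z - B'.z)
    (hw : Q ^ 3 ∣ B.w - B'.w) : tred (Q.natAbs ^ 3) B = tred (Q.natAbs ^ 3) B' := by
  have key : ∀ a b : ℤ, Q ^ 3 ∣ a - b →
      ((a : ℤ) : ZMod (Q.natAbs ^ 3)) = ((b : ℤ) : ZMod (Q.natAbs ^ 3)) := by
    intro a b h
    rw [← sub_eq_zero, ← Int.cast_sub, ZMod.intCast_zmod_eq_zero_iff_dvd]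
    rw [Nat.cast_pow, pr_cast hQ]
    exact h
  exact Tup.ext (key _ _ hx) (key _ _ hy) (key _ _ hc) (key _ _ hz) (key _ _ hw)

lemma tred_tau (m : ℕ) (u : ℤ) (B : Tup ℤ) : tred m (tau u B) = tau (u : ZMod m) (tred m B) := by
  apply Tup.ext <;> simp only [tau, gq, tred] <;> push_cast <;> ring

lemma tau_neg {R : Type} [CommRing R] (u : R) (B : Tup R) : tau (-u) (tau u B) = B := by
  apply Tup.ext <;> simp only [tau, gq] <;> ring

/-- The parameters. -/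
abbrev D2 (n : ℕ) : Type :=
  Option (Fin n) × (ZMod n)ˣ × Fin (n ^ 2) × Fin (n ^ 2) × Fin (n ^ 1) × Fin (n ^ 1)

/-- The tuple. -/
noncomputable def f2 (Q s : ℤ) : D2 Q.natAbs → Tup (ZMod (Q.natAbs ^ 3))
  | (none, v, k1, k2, k3, k4) => tred _ ⟨Q ^ 2 * rs' (rd Q s) v, Q ^ 2 * (k4 : ℕ), Q ^ 2 * (k3 : ℕ),
      Q * (k2 : ℕ), rl v + Q * (k1 : ℕ)⟩
  | (some u, v, k1, k2, k3, k4) => tred _ (tau (-((u : ℕ) : ℤ)) ⟨rl v + Q * (k1 : ℕ), Q * (k2 : ℕ),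
      Q ^ 2 * (k3 : ℕ), Q ^ 2 * (k4 : ℕ), Q ^ 2 * rs' (rd Q s) v⟩)

lemma rl_neg {n : ℕ} (l : (ZMod n)ˣ) : rl (-l) = rl l := by
  unfold rl
  rw [Units.val_neg, neg_sq]

lemma rs_neg {n : ℕ} (s : ZMod n) (l : (ZMod n)ˣ) : rs' s (-l) = rs' s l := by
  unfold rs'
  rw [inv_neg, Units.val_neg, neg_sq]

theorem ty2 : S_TY2 := by
  intro Q hQ h8 s hs
  refine ⟨fun u B hB => c2_tau hB u, ?_⟩
  haveI : Fact Q.natAbs.Prime := ⟨pr_nat hQ⟩
  have hpr : Prime Q := hQ.2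
  have h2 := two_ne hQ h8
  have hm := half (D := D2 Q.natAbs) (f2 Q s) (fun d => (d.1, -d.2.1, d.2.2))
    (by
      rintro ⟨p, v, k1, k2, k3, k4⟩
      rcases p with _ | u
      · simp only [f2, rl_neg, rs_neg]
      · simp only [f2, rl_neg, rs_neg])
    (by
      rintro ⟨p, v, k⟩ h
      have h3 : -v = v := congrArg (fun d : D2 Q.natAbs => d.2.1) h
      have h4 : -(v : ZMod Q.natAbs) = v := by
        rw [← Units.val_neg, h3]
      have h5 : 2 * (v : ZMod Q.natAbs) = 0 := by linear_combination -h4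
      exact (mul_ne_zero h2 v.ne_zero) h5)
    (fun R => ∃ B, C2 Q s B ∧ tred (Q.natAbs ^ 3) B = R) ?_
  · refine hm.trans ?_
    rw [Nat.card_prod, Nat.card_prod, Nat.card_prod, Nat.card_prod, Nat.card_prod, Nat.card_units,
      Nat.card_zmod]
    simp only [Nat.card_eq_fintype_card, Fintype.card_option, Fintype.card_fin]
    obtain ⟨n, hn⟩ : ∃ n, Q.natAbs = n + 1 := ⟨Q.natAbs - 1, by
      have := (pr_nat hQ).pos
      omega⟩
    rw [hn]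
    simp only [Nat.add_sub_cancel, pow_one]
    have e1 : (n + 1 + 1) * (n * ((n + 1) ^ 2 * ((n + 1) ^ 2 * ((n + 1) * (n + 1))))) =
      (n * (n + 2)) * (n + 1) ^ 6 := by ring
    have e2 : (n + 1) ^ 8 = (n * (n + 2) + 1) * (n + 1) ^ 6 := by ring
    rw [e1, e2]
    exact Nat.mul_le_mul_right _ (Nat.le_succ _)
  · rintro R ⟨B, hB, rfl⟩
    obtain ⟨ξ, a1, a2, a3, a4, a5⟩ := id hB
    by_cases h : Q ∣ ξ 2
    · -- the point at infinity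
      have hd : Q ^ 2 ∣ ξ 0 * ξ 2 + ξ 1 * ξ 1 + ξ 2 * ξ 0 := by rw [← dJ]; exact a2
      have h1 : Q ∣ ξ 1 := by
        have h3 : Q ∣ ξ 1 * ξ 1 := by
          have h4 := (dvd_pow_self Q two_ne_zero).trans hd
          have h5 := dvd_sub (dvd_sub h4 (Dvd.dvd.mul_left h (ξ 0))) (Dvd.dvd.mul_right h (ξ 0))
          exact dc h5 (by ring)
        exact (hpr.dvd_or_dvd h3).elim id id
      have h0 : ¬ Q ∣ ξ 0 := by
        intro h0
        obtain ⟨i, hi⟩ := a1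
        fin_cases i
        · exact hi h0
        · exact hi h1
        · exact hi h
      have g00 := a3 0 0
      have g01 := a3 0 1
      have g02 := a3 0 2
      have g12 := a3 1 2
      have g22 := a3 2 2
      have m0' := a4 0
      have m1' := a4 1
      have m2' := a4 2
      rw [J0] at g00 g01 g02
      rw [J1] at g01 g12
      rw [J2] at g02 g12 g22
      rw [m0] at m0'
      rw [m1] at m1'
      rw [m2] at m2'
      replace g22 : Q ∣ B.w - ξ 0 * ξ 0 := g22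
      simp only [mat, Matrix.of_apply, Matrix.cons_val', Matrix.cons_val_zero, Matrix.cons_val_one,
        Matrix.cons_val_two, Matrix.head_cons, Matrix.tail_cons, Matrix.empty_val',
        Matrix.cons_val_fin_one, Matrix.cons_val] at g00 g01 g02 g12 g22
      obtain ⟨v, k1, k2, k3, k4, r1, r2, r3, r4, r5⟩ := core (s := s) hQ h8 (x := B.w) (y := B.z)
        (c := B.c) (z := B.y) (w := B.x) (a := ξ 2) (b := ξ 1) (l := ξ 0) h1 h0
        (dc hd (by ring)) g22 (dc g12 (by ring))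
        (dc g02 (by ring)) (dc g01 (by ring)) g00
        (dc m2' (by ring)) (dc m1' (by ring))
        (dc m0' (by ring)) (by
          unfold chA at a5
          convert a5 using 1
          ring)
      refine ⟨(none, v, k1, k2, k3, k4), ?_⟩
      symm
      exact tred_eq hQ r5 r4 r3 r2 r1
    · -- a finite point
      have hx2 : (rd Q (ξ 2) : ZMod Q.natAbs) ≠ 0 := fun h' => h ((rd_zero Q _).1 h')
      obtain ⟨u, hu⟩ : ∃ u : Fin Q.natAbs, ((u : ℕ) : ZMod Q.natAbs) =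
          rd Q (ξ 1) / (2 * rd Q (ξ 2)) :=
        ⟨⟨(rd Q (ξ 1) / (2 * rd Q (ξ 2)) : ZMod Q.natAbs).val, ZMod.val_lt _⟩, by
          simp only [ZMod.natCast_zmod_val]⟩
      obtain ⟨U, hU⟩ : ∃ U : ℤ, U = ((u : ℕ) : ℤ) := ⟨_, rfl⟩
      have hB' := c2_tau hB U
      have hmv1 : Q ∣ mv U ξ 1 := by
        rw [mv1, ← rd_zero, map_sub, map_mul, map_mul, map_ofNat, hU, map_natCast, hu]
        field_simp
        ring
      have hmv2 : ¬ Q ∣ mv U ξ 2 := by rw [mv2]; exact h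
      obtain ⟨ξ', hξ'⟩ : ∃ ξ', ξ' = mv U ξ := ⟨_, rfl⟩
      obtain ⟨B', hBB⟩ : ∃ B', B' = tau U B := ⟨_, rfl⟩
      have hC : Q ^ 2 ∣ ξ' ⬝ᵥ JJ *ᵥ ξ' ∧ (∀ i j, Q ∣ mat B' i j - (JJ *ᵥ ξ') i * (JJ *ᵥ ξ') j) ∧
          (∀ i, Q ^ 2 ∣ (mat B' *ᵥ ξ') i) ∧ Q ^ 3 ∣ chA B' - s * Q ^ 2 := by
        rw [hξ', hBB]
        exact c2w a2 a3 a4 a5 U
      obtain ⟨c2, c3, c4, c5⟩ := hC
      rw [← hξ'] at hmv1 hmv2
      rw [dJ] at c2
      have g00 := c3 0 0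
      have g01 := c3 0 1
      have g02 := c3 0 2
      have g12 := c3 1 2
      have g22 := c3 2 2
      have m0' := c4 0
      have m1' := c4 1
      have m2' := c4 2
      rw [J0] at g00 g01 g02
      rw [J1] at g01 g12
      rw [J2] at g02 g12 g22
      rw [m0] at m0'
      rw [m1] at m1'
      rw [m2] at m2'
      replace g22 : Q ∣ B'.w - ξ' 0 * ξ' 0 := g22
      simp only [mat, Matrix.of_apply, Matrix.cons_val', Matrix.cons_val_zero, Matrix.cons_val_one,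
        Matrix.cons_val_two, Matrix.head_cons, Matrix.tail_cons, Matrix.empty_val',
        Matrix.cons_val_fin_one, Matrix.cons_val] at g00 g01 g02 g12
      obtain ⟨v, k1, k2, k3, k4, r1, r2, r3, r4, r5⟩ := core (s := s) hQ h8 (x := B'.x) (y := B'.y)
        (c := B'.c) (z := B'.z) (w := B'.w) (a := ξ' 0) (b := ξ' 1) (l := ξ' 2) hmv1 hmv2
        (dc c2 (by ring)) g00 g01 g02 g12 g22
        (dc m0' (by ring)) (dc m1' (by ring)) (dc m2' (by ring)) (by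
          unfold chA at c5
          exact dc c5 (by ring))
      refine ⟨(some u, v, k1, k2, k3, k4), ?_⟩
      have e1 : tred (Q.natAbs ^ 3) B' = tred (Q.natAbs ^ 3) ⟨rl v + Q * (k1 : ℕ), Q * (k2 : ℕ),
          Q ^ 2 * (k3 : ℕ), Q ^ 2 * (k4 : ℕ), Q ^ 2 * rs' (rd Q s) v⟩ := tred_eq hQ r1 r2 r3 r4 r5
      show tred _ (tau (-((u : ℕ) : ℤ)) ⟨rl v + Q * (k1 : ℕ), Q * (k2 : ℕ),
          Q ^ 2 * (k3 : ℕ), Q ^ 2 * (k4 : ℕ), Q ^ 2 * rs' (rd Q s) v⟩) = _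
      rw [tred_tau, ← e1, hBB, ← hU, ← tred_tau, tau_neg]

end Pool.Agent.H93.PR
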